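import Pool.Agent.H38.Ace.LowFinal

set_option autoImplicit false

open scoped ENNReal

namespace Pool.Agent.Results.MP_52ae34_co.ExactValue

open Pool.Agent.H38.Ace

/-- The function `S` is known exactly: `S(n) = 2 n - 2` for every `n ≥ 2` and every target alphabet
with at least two letters. The upper bound holds in the form: an injective morphism from the words
over `n` letters maps an infinite word with a finite asymptotic critical exponent `ACE w` to a word
with an asymptotic critical exponent of at most `(n - 1) (⌊ACE w⌋ + 1)`. -/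
theorem result :
    (∀ (B : Type) [Nonempty B] [Nontrivial B] (n : ℕ), 2 ≤ n →
      S B n = ((2 * n - 2 : ℕ) : ℝ≥0∞)) ∧
    (∀ (A B : Type) [Fintype A] [Nonempty B] (f : A → List B) (w : ℕ → A), InjMorphism f →
      ACE w ≠ ⊤ →
        ACE (image f w) ≤ (((Fintype.card A - 1) * (⌊(ACE w).toReal⌋₊ + 1) : ℕ) : ℝ≥0∞)) := by
  refine ⟨?_, ?_⟩
  · intro B _ _ n hn
    apply le_antisymm
    · have h := S_le2 (B := B) n
      rw [Nat.mul_sub] at h
      exact h
    · obtain ⟨k, rfl⟩ : ∃ k, n = k + 1 := ⟨n - 1, by omega⟩
      have h := Low.S_ge2 B k (by omega)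
      rw [show 2 * (k + 1) - 2 = 2 * k by omega]
      exact h
  · intro A B _ _ f w hf hw
    exact ace_image_le_floor hf w hw

end Pool.Agent.Results.MP_52ae34_co.ExactValue
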